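import Pool.Agent.N848.AW.Stm
import Pool.Agent.R426.QK.FB

/-!
# Project AW (helper848), part BAD: few sets have degenerate labels (helper402)

After the second half of `Pool/Agent/R426/QK/FB.lean` (helper806).
-/

set_option autoImplicit false

open scoped Classical

namespace Pool.Agent.N402.AW

open Finset Filter
open Pool.Agent.R426.QK
open Pool.Agent.R426.QK.FB
open Pool.Agent.N848.AW (r8 gg hh c8 xr5 Nd3 S_HALL5 S_BAD5 S_BADH)
open Pool.Agent.R426.QD (r4 r4_eq)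
open Pool.Agent.Y698 (RR cX cY ev ev_apply e7 e7_sq e7_eq_zero fR cj aR nR mul_cj cj_cj)
open Pool.Agent.Y698.SG (sy sy_val lg_one lg_neg_one)
open Pool.Agent.Y703.CX (eL zz kk)

/-! ### The labels modulo eight -/

lemma r8_apply (x : RR) : r8 x = (cX x : ZMod 8) + (cY x : ZMod 8) * 6 := rfl

lemma r8_of_prm {π : RR} (h : prm π) : r8 π = 1 ∨ r8 π = 5 := by
  have h1 := h.r4
  rw [r4_eq] at h1
  have h2 : (4 : ℤ) ∣ cX π + 2 * cY π - 1 := by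
    have h3 : ((cX π + 2 * cY π - 1 : ℤ) : ZMod 4) = 0 := by
      rw [Int.cast_sub, h1, Int.cast_one, sub_self]
    exact (ZMod.intCast_zmod_eq_zero_iff_dvd _ 4).1 h3
  have h4 : r8 π = ((cX π + 6 * cY π : ℤ) : ZMod 8) := by
    rw [r8_apply]
    push_cast
    ring
  have h5 : (8 : ℤ) ∣ cX π + 6 * cY π - 1 ∨ (8 : ℤ) ∣ cX π + 6 * cY π - 5 := by omega
  rcases h5 with h5 | h5
  · left
    have h6 := (ZMod.intCast_zmod_eq_zero_iff_dvd _ 8).2 h5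
    rw [Int.cast_sub, sub_eq_zero] at h6
    rw [h4, h6]
    rfl
  · right
    have h6 := (ZMod.intCast_zmod_eq_zero_iff_dvd _ 8).2 h5
    rw [Int.cast_sub, sub_eq_zero] at h6
    rw [h4, h6]
    rfl

lemma r8_cj {π : RR} (h : prm π) : r8 (cj π) = 1 ∨ r8 (cj π) = 3 ∨ r8 (cj π) = 5 ∨
    r8 (cj π) = 7 := by
  have h1 := nrm_odd h
  have h2 : r8 π * r8 (cj π) = ((nrm π : ℕ) : ZMod 8) := by
    rw [← map_mul, mul_cj, ← nrm_cast, map_intCast]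
    push_cast
    rfl
  have h3 : ((nrm π : ℕ) : ZMod 8) = ((nrm π % 8 : ℕ) : ZMod 8) := by
    rw [ZMod.natCast_mod]
  rw [h3] at h2
  have h4 : nrm π % 8 = 1 ∨ nrm π % 8 = 3 ∨ nrm π % 8 = 5 ∨ nrm π % 8 = 7 := by omega
  have key : ∀ a b : ZMod 8, (a * b = 1 ∨ a * b = 3 ∨ a * b = 5 ∨ a * b = 7) →
      b = 1 ∨ b = 3 ∨ b = 5 ∨ b = 7 := by decide
  refine key (r8 π) _ ?_
  rcases h4 with h4 | h4 | h4 | h4 <;> rw [h2, h4]
  · left; rfl
  · right; left; rfl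
  · right; right; left; rfl
  · right; right; right; rfl

lemma c8_one : c8 1 = 1 := by unfold c8; rw [if_pos (Or.inl rfl)]

lemma c8_seven : c8 7 = 1 := by unfold c8; rw [if_pos (Or.inr rfl)]

lemma c8_three : c8 3 = -1 := by
  unfold c8
  rw [if_neg (by decide), if_pos (Or.inl rfl)]

lemma c8_five : c8 5 = -1 := by
  unfold c8
  rw [if_neg (by decide), if_pos (Or.inr rfl)]

lemma gg_ez {π : RR} (h : prm π) : c8 (r8 π) = ez (gg π) := by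
  unfold gg
  rcases r8_of_prm h with h1 | h1
  · rw [h1, if_pos rfl, ez_zero, c8_one]
  · rw [h1, if_neg (by decide), ez_one, c8_five]

lemma hh_ez {π : RR} (h : prm π) : c8 (r8 (cj π)) = ez (hh π) := by
  unfold hh
  rcases r8_cj h with h1 | h1 | h1 | h1
  · rw [h1, if_pos (Or.inl rfl), ez_zero, c8_one]
  · rw [h1, if_neg (by decide), ez_one, c8_three]
  · rw [h1, if_neg (by decide), ez_one, c8_five]
  · rw [h1, if_pos (Or.inr rfl), ez_zero, c8_seven]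

lemma c8_val (a : ZMod 8) : c8 a = 1 ∨ c8 a = -1 ∨ c8 a = 0 := by
  unfold c8
  split_ifs
  · exact Or.inl rfl
  · exact Or.inr (Or.inl rfl)
  · exact Or.inr (Or.inr rfl)

lemma xr5_norm (n : RR) (i j k : ℕ) (a : RR) : ‖xr5 n i j k a‖ ≤ 1 := by
  unfold xr5 jac
  rw [norm_mul, norm_mul, norm_mul, norm_pow, norm_pow, norm_pow, norm_prod]
  have h1 : ∏ π ∈ PD n, ‖sy π a‖ ≤ 1 := by
    refine prod_le_one (fun _ _ => norm_nonneg _) fun π _ => ?_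
    refine norm_le_of_val ?_
    rcases sy_val π a with h | h
    · exact Or.inr (Or.inr h.2)
    · rcases h.2 with h | h
      · exact Or.inl h
      · exact Or.inr (Or.inl h)
  have h2 : ‖kp a‖ ^ i ≤ 1 := pow_le_one₀ (norm_nonneg _) (norm_le_of_val (kp_val a))
  have h3 : ‖c8 (r8 a)‖ ^ j ≤ 1 := pow_le_one₀ (norm_nonneg _) (norm_le_of_val (c8_val _))
  have h4 : ‖c8 (r8 (cj a))‖ ^ k ≤ 1 := pow_le_one₀ (norm_nonneg _) (norm_le_of_val (c8_val _))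
  have h5 : 0 ≤ ‖kp a‖ ^ i := by positivity
  have h6 : 0 ≤ ‖c8 (r8 a)‖ ^ j := by positivity
  have h7 : 0 ≤ ‖c8 (r8 (cj a))‖ ^ k := by positivity
  exact mul_le_one₀ (mul_le_one₀ (mul_le_one₀ h1 h5 h2) h6 h3) h7 h4

lemma g_ge5 (n : RR) (i j k : ℕ) (π : RR) : 1 / 3 ≤ (2 + (xr5 n i j k π).re) / 3 := by
  have h := xr5_norm n i j k π
  have h1 := (abs_le.1 (Complex.abs_re_le_norm (xr5 n i j k π))).1
  linarith

/-- the character of a set -/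
lemma xr5_ez {A : Finset RR} (hA : ∀ u ∈ A, Pq u) {i j k : ℕ} (hi : i < 2) (hj : j < 2)
    (hk : k < 2) {π : RR} (hπ : Pq π) (hπA : π ∉ A) :
    xr5 (∏ u ∈ A, u) i j k π =
      ez (∑ u ∈ A, cs u π + i * tt π + j * gg π + k * hh π) := by
  unfold xr5 jac
  rw [(PS_prod hA).2, ez_add, ez_add, ez_add, ez_sum, ez_pow i hi, ez_pow j hj, ez_pow k hk,
    ← kp_ez hπ.prm, ← gg_ez hπ.prm, ← hh_ez hπ.prm]
  congr 3
  refine prod_congr rfl fun u hu => sy_ez fun hd => ?_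
  have := eq_of_dvd (hA u hu) hπ hd
  exact hπA (this ▸ hu)

/-- the labels are degenerate with respect to a set and three exponents -/
def Dg5 (A : Finset RR) (i j k : ℕ) (T : Finset RR) : Prop :=
  ∀ π ∈ T, ∑ u ∈ A, cs u π + i * tt π + j * gg π + k * hh π = 0

theorem notNd3 (hR : RecP) {S₀ T : Finset RR} (hS₀ : ∀ u ∈ S₀, Pq u)
    (hT : ∀ π ∈ T, Pq π ∧ π ∉ S₀) (h : ¬ Nd3 S₀ T) :
    ∃ (A : Finset RR) (i j k : ℕ), A ⊆ S₀ ∧ i < 2 ∧ j < 2 ∧ k < 2 ∧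
      (A ≠ ∅ ∨ i ≠ 0 ∨ j ≠ 0 ∨ k ≠ 0) ∧ Dg5 A i j k T := by
  unfold Nd3 at h
  push Not at h
  obtain ⟨v, e₁, e₂, e₃, hve, h2⟩ := h
  have hmul : ∀ a b : ZMod 2, (if a ≠ 0 then b else 0) = a * b := by decide
  have hA : ∀ f : RR → ZMod 2, ∑ u ∈ S₀.filter (fun u => v u ≠ 0), f u = ∑ u ∈ S₀, v u * f u := by
    intro f
    rw [sum_filter]
    exact sum_congr rfl fun u _ => hmul (v u) (f u)
  have hval : ∀ e : ZMod 2, e ≠ 0 → e.val ≠ 0 := fun e he h0 => he ((ZMod.val_eq_zero e).1 h0)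
  set A := S₀.filter (fun u => v u ≠ 0) with hAdef
  set i : ZMod 2 := e₁ + ∑ u ∈ A, tt u with hi
  refine ⟨A, i.val, e₂.val, e₃.val, filter_subset _ _, ZMod.val_lt i, ZMod.val_lt e₂,
    ZMod.val_lt e₃, ?_, fun π hπ => ?_⟩
  · by_cases hA0 : A = ∅
    · have hi' : i = e₁ := by rw [hi, hA0, sum_empty, add_zero]
      rcases hve with ⟨u, hu, hu0⟩ | he | he | he
      · exfalso
        have : u ∈ A := by
          rw [hAdef, mem_filter]
          exact ⟨hu, hu0⟩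
        rw [hA0] at this
        exact absurd this (Finset.notMem_empty u)
      · right; left
        rw [hi']
        exact hval _ he
      · right; right; left
        exact hval _ he
      · right; right; right
        exact hval _ he
    · exact Or.inl hA0
  · rw [ZMod.natCast_zmod_val, ZMod.natCast_zmod_val, ZMod.natCast_zmod_val, hi, hA, hA]
    have h5 := h2 π hπ
    have h6 : ∀ u ∈ S₀, v u * cs π u = v u * cs u π + v u * tt u * tt π := by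
      intro u hu
      have hne : π ≠ u := fun h => (hT π hπ).2 (h ▸ hu)
      have h7 := hR π u (hT π hπ).1 (hS₀ u hu) hne
      have key : ∀ a b c d w : ZMod 2, a + b = c * d → w * a = w * b + w * d * c := by decide
      exact key _ _ _ _ _ h7
    rw [sum_congr rfl h6, sum_add_distrib, ← sum_mul] at h5
    rw [← h5]
    ring

theorem pair_count5 {C : ℝ} (hC1 : 1 ≤ C)
    (hC : ∀ (n : RR) (i j k : ℕ), PS n → i < 2 → j < 2 → k < 2 →
      (n ≠ 1 ∨ i ≠ 0 ∨ j ≠ 0 ∨ k ≠ 0) → ∀ T : ℕ,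
      ∑ a ∈ SB T, mf (fun π => (2 + (xr5 n i j k π).re) / 3) a ≤
        C * (lgn (nrm n)) ^ (1 / 3 : ℝ) * (T * (lgn T) ^ (-(1 / 3) : ℝ)))
    (X z : ℕ) (S₀ : Finset RR) (hS₀ : ∀ u ∈ S₀, Pq u ∧ nrm u ≤ z)
    (A : Finset RR) (i j k : ℕ) (hA : A ⊆ S₀) (hi : i < 2) (hj : j < 2) (hk : k < 2)
    (hAij : A ≠ ∅ ∨ i ≠ 0 ∨ j ≠ 0 ∨ k ≠ 0)
    (F : Finset (Finset RR)) (hF : ∀ S ∈ F, (S ∈ SS X ∧ sm z S = S₀) ∧ Dg5 A i j k (la z S)) :
    (F.card : ℝ) ≤ C * lgn (pN S₀) * (((X / pN S₀ : ℕ) : ℝ) *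
          (lgn (X / pN S₀)) ^ (-(1 / 3) : ℝ)) := by
  obtain ⟨a1, a2⟩ := PS_prod (S := A) fun π hπ => (hS₀ π (hA hπ)).1
  have hval : ∀ S ∈ F, ∀ π ∈ la z S, xr5 (∏ π ∈ A, π) i j k π = 1 := by
    intro S hS π hπ
    obtain ⟨⟨h1, h2⟩, h3⟩ := hF S hS
    have hπq : Pq π ∧ ¬ nrm π ≤ z := by
      unfold la at hπ
      rw [mem_filter] at hπ
      unfold SS at h1
      rw [mem_filter] at h1
      exact ⟨h1.2.1.1 π hπ.1, hπ.2⟩
    rw [xr5_ez (fun u hu => (hS₀ u (hA hu)).1) hi hj hk hπq.1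
      (fun h => hπq.2 (hS₀ π (hA h)).2), h3 π hπ, ez_zero]
  set a := ∏ π ∈ A, π with ha
  have hab : a ≠ 1 ∨ i ≠ 0 ∨ j ≠ 0 ∨ k ≠ 0 := by
    rcases hAij with h | h
    · left
      intro h1
      apply h
      rw [← a2, h1, PD_one]
    · exact Or.inr h
  have h := fiber_le X z S₀ (fun u hu => (hS₀ u hu).1) F (fun S hS => (hF S hS).1)
    (fun π => (2 + (xr5 a i j k π).re) / 3) (fun π => by
      have := g_ge5 a i j k π
      linarith) 1 (fun S hS => by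
      refine le_of_eq (prod_eq_one fun π hπ => ?_).symm
      rw [hval S hS π hπ]
      norm_num)
  rw [mul_one] at h
  refine h.trans ((hC a i j k a1 hi hj hk hab _).trans ?_)
  have hnn : nrm a ≤ pN S₀ := by
    rw [ha, nrm_prod]
    unfold pN
    refine prod_le_prod_of_subset_of_one_le' hA fun u hu _ => ?_
    exact nrm_pos' (pq_ne (hS₀ u hu).1)
  have h4 : (lgn (nrm a)) ^ (1 / 3 : ℝ) ≤ lgn (pN S₀) := by
    calc (lgn (nrm a)) ^ (1 / 3 : ℝ) ≤ (lgn (nrm a)) ^ (1 : ℝ) :=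
          Real.rpow_le_rpow_of_exponent_le (one_le_lgn _) (by norm_num)
      _ = lgn (nrm a) := Real.rpow_one _
      _ ≤ lgn (pN S₀) := lgn_mono hnn
  have hTl : 0 ≤ ((X / pN S₀ : ℕ) : ℝ) * (lgn (X / pN S₀)) ^ (-(1 / 3) : ℝ) :=
    mul_nonneg (Nat.cast_nonneg _) (Real.rpow_nonneg (zero_le_one.trans (one_le_lgn _)) _)
  gcongr

theorem bad_count5 (hR : RecP) {C : ℝ} (hC1 : 1 ≤ C)
    (hC : ∀ (n : RR) (i j k : ℕ), PS n → i < 2 → j < 2 → k < 2 →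
      (n ≠ 1 ∨ i ≠ 0 ∨ j ≠ 0 ∨ k ≠ 0) → ∀ T : ℕ,
      ∑ a ∈ SB T, mf (fun π => (2 + (xr5 n i j k π).re) / 3) a ≤
        C * (lgn (nrm n)) ^ (1 / 3 : ℝ) * (T * (lgn T) ^ (-(1 / 3) : ℝ)))
    (X : ℕ) (S₀ : Finset RR) (hS₀ : ∀ u ∈ S₀, Pq u ∧ nrm u ≤ zz X)
    (G : Finset (Finset RR))
    (hG : ∀ S ∈ G, S ∈ SS X ∧ (S.card ≤ kk X ∧ ¬ Nd3 (sm (zz X) S) (la (zz X) S)) ∧
      sm (zz X) S = S₀) : (G.card : ℝ) ≤
        (8 * C) * 2 ^ S₀.card * lgn (pN S₀) * (((X / pN S₀ : ℕ) : ℝ) *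
          (lgn (X / pN S₀)) ^ (-(1 / 3) : ℝ)) := by
  set P := (S₀.powerset ×ˢ (range 2 ×ˢ (range 2 ×ˢ range 2))).filter
    fun p => p.1 ≠ ∅ ∨ p.2.1 ≠ 0 ∨ p.2.2.1 ≠ 0 ∨ p.2.2.2 ≠ 0 with hP
  have hsub : G ⊆ P.biUnion fun p =>
      G.filter fun S => Dg5 p.1 p.2.1 p.2.2.1 p.2.2.2 (la (zz X) S) := by
    intro S hS
    obtain ⟨h1, ⟨h2, h3⟩, h4⟩ := hG S hS
    rw [h4] at h3
    have hT : ∀ π ∈ la (zz X) S, Pq π ∧ π ∉ S₀ := by
      intro π hπ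
      unfold la at hπ
      rw [mem_filter] at hπ
      unfold SS at h1
      rw [mem_filter] at h1
      exact ⟨h1.2.1.1 π hπ.1, fun h => hπ.2 (hS₀ π h).2⟩
    obtain ⟨A, i, j, k, hA, hi, hj, hk, hAij, hDg⟩ :=
      notNd3 hR (fun u hu => (hS₀ u hu).1) hT h3
    rw [mem_biUnion]
    refine ⟨(A, i, j, k), ?_, ?_⟩
    · rw [hP, mem_filter, mem_product, mem_product, mem_product, mem_powerset, mem_range,
        mem_range, mem_range]
      exact ⟨⟨hA, hi, hj, hk⟩, hAij⟩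
    · rw [mem_filter]
      exact ⟨hS, hDg⟩
  have h1 : (G.card : ℝ) ≤
      ∑ p ∈ P, ((G.filter fun S => Dg5 p.1 p.2.1 p.2.2.1 p.2.2.2 (la (zz X) S)).card : ℝ) := by
    exact_mod_cast (card_le_card hsub).trans card_biUnion_le
  have h2 : ∀ p ∈ P, ((G.filter fun S => Dg5 p.1 p.2.1 p.2.2.1 p.2.2.2 (la (zz X) S)).card : ℝ) ≤
      C * lgn (pN S₀) * (((X / pN S₀ : ℕ) : ℝ) * (lgn (X / pN S₀)) ^ (-(1 / 3) : ℝ)) := by
    intro p hp
    rw [hP, mem_filter, mem_product, mem_product, mem_product, mem_powerset, mem_range,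
      mem_range, mem_range] at hp
    refine pair_count5 hC1 hC X (zz X) S₀ hS₀ p.1 p.2.1 p.2.2.1 p.2.2.2 hp.1.1 hp.1.2.1
      hp.1.2.2.1 hp.1.2.2.2 hp.2 _ ?_
    intro S hS
    rw [mem_filter] at hS
    have h := hG S hS.1
    exact ⟨⟨h.1, h.2.2⟩, hS.2⟩
  have h3 : (P.card : ℝ) ≤ 8 * 2 ^ S₀.card := by
    have : P.card ≤ 2 ^ S₀.card * (2 * (2 * 2)) := by
      refine (card_filter_le _ _).trans (le_of_eq ?_)
      rw [card_product, card_product, card_product, card_powerset, card_range]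
    have h' : (P.card : ℝ) ≤ ((2 ^ S₀.card * (2 * (2 * 2)) : ℕ) : ℝ) := by exact_mod_cast this
    refine h'.trans (le_of_eq ?_)
    push_cast
    ring
  have hTl : 0 ≤ ((X / pN S₀ : ℕ) : ℝ) * (lgn (X / pN S₀)) ^ (-(1 / 3) : ℝ) :=
    mul_nonneg (Nat.cast_nonneg _) (Real.rpow_nonneg (zero_le_one.trans (one_le_lgn _)) _)
  have hlg := lgn_pos (pN S₀)
  calc (G.card : ℝ) ≤ ∑ p ∈ P, C * lgn (pN S₀) * (((X / pN S₀ : ℕ) : ℝ) *
        (lgn (X / pN S₀)) ^ (-(1 / 3) : ℝ)) := h1.trans (sum_le_sum h2)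
    _ = P.card * (C * lgn (pN S₀) * (((X / pN S₀ : ℕ) : ℝ) *
        (lgn (X / pN S₀)) ^ (-(1 / 3) : ℝ))) := by rw [sum_const, nsmul_eq_mul]
    _ ≤ (8 * 2 ^ S₀.card) * (C * lgn (pN S₀) * (((X / pN S₀ : ℕ) : ℝ) *
        (lgn (X / pN S₀)) ^ (-(1 / 3) : ℝ))) :=
        mul_le_mul_of_nonneg_right h3 (by positivity)
    _ = _ := by ring

/-- **AW-BAD** -/
theorem t_BAD5 : Pool.Agent.N848.AW.S_BADH := by
  rintro hR ⟨C, hC1, hC⟩ hM ε hε
  obtain ⟨X₀, hX₀⟩ := gen hM 2 (8 * C) (by norm_num) (by positivity)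
    (fun X S => ¬ Nd3 (sm (zz X) S) (la (zz X) S))
    (fun X S₀ hS₀ _ F hF => bad_count5 hR hC1 hC X S₀ hS₀ F hF) ε hε
  refine ⟨X₀, fun X hX => hX₀ X hX _ fun S hS => ?_⟩
  rw [mem_filter] at hS
  exact hS

end Pool.Agent.N402.AW
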